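import Pool.Agent.Helper2.SV.GoalsF
import Pool.Agent.Helper2.SV.GoalsP

/-!
# Project SV (MP_e9db21_co): packet PR
-/

set_option autoImplicit false

namespace Pool.Agent.Helper86.SV

open Pool.Agent.Helper2.SV

variable {V : Type} [Finite V]

theorem exists_tight (G : SimpleGraph V) (w : V → ℕ) (S : Set V) : ∃ L, Tight G w S L := by
  classical
  obtain ⟨L, hL, hmax⟩ := Set.exists_max_image
    {L : Finset V | (↑L : Set V) ⊆ S ∧ Clq G ↑L} (fun L => ∑ x ∈ L, w x) (Set.toFinite _)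
    ⟨∅, by simp, by simpa using clq_empty G⟩
  exact ⟨L, hL.1, hL.2, fun K hK hK' => hmax K ⟨hK, hK'⟩⟩

/-- union of two cliques complete to each other -/
theorem clq_union [DecidableEq V] {G : SimpleGraph V} {K L : Finset V} (hK : Clq G ↑K)
    (hL : Clq G ↑L) (h : ∀ x ∈ K, ∀ y ∈ L, G.Adj x y) : Clq G ↑(K ∪ L) := by
  intro x hx y hy hxy
  rw [Finset.mem_coe, Finset.mem_union] at hx hy
  rcases hx with hx | hx <;> rcases hy with hy | hy
  · exact hK x hx y hy hxy
  · exact h x hx y hy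
  · exact (h y hy x hx).symm
  · exact hL x hx y hy hxy

theorem isPrime (hSUB : G_SUB) (G : SimpleGraph V) (w : V → ℕ) (hM : MinCE G w) : IsPrime G := by
  classical
  rintro H hH ⟨h, hh, b, hb, hhb⟩
  by_contra hne
  obtain ⟨L0, hL0, hL0c, hL0m⟩ := exists_tight G w H
  obtain ⟨m, hm⟩ : ∃ m, m = ∑ x ∈ L0, w x := ⟨_, rfl⟩
  rw [← hm] at hL0m
  have hmpos : 0 < m := by
    have h1 := hL0m {h} (by simpa using hh) (by simpa using clq_singleton G h)
    rw [Finset.sum_singleton] at h1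
    exact (hM.pos h).trans_le h1
  obtain ⟨w', hw'⟩ : ∃ w' : V → ℕ, w' = Function.update w h m := ⟨_, rfl⟩
  have hw'h : w' h = m := by rw [hw', Function.update_self]
  have hw'n : ∀ x, x ≠ h → w' x = w x := fun x hx => by rw [hw', Function.update_of_ne hx]
  have hw's : ∀ L : Finset V, h ∉ L → ∑ x ∈ L, w' x = ∑ x ∈ L, w x := fun L hL =>
    Finset.sum_congr rfl fun x hx => hw'n x fun e => hL (e ▸ hx)
  set S : Set V := insert h Hᶜ with hS
  have hSne : S ≠ Set.univ := by
    intro h1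
    have h2 : b ∈ S := by rw [h1]; trivial
    rcases h2 with h3 | h3
    · exact hhb h3.symm
    · exact h3 hb
  obtain ⟨A', hA's, hA'p, hA'm⟩ := hM.ih S hSne w'
  obtain ⟨A1, hA1s, hA1p, hA1m⟩ := hM.ih H hne w
  -- complete to `H`
  have hcomp : ∀ x, x ∉ H → ∀ y ∈ H, G.Adj x y → ∀ z ∈ H, G.Adj x z := by
    intro x hx y hy hxy
    rcases hH x hx with h1 | h1
    · exact h1
    · exact absurd hxy (h1 y hy)
  obtain ⟨A, hA⟩ : ∃ A : Set V, A = if h ∈ A' then (A' \ {h}) ∪ A1 else A' := ⟨_, rfl⟩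
  have hAp : Perf G A := by
    by_cases h1 : h ∈ A'
    · rw [if_pos h1] at hA
      refine hSUB V G A H h hh (fun x _ hx => hH x hx) (hA'p.mono ?_) (hA1p.mono ?_)
      · rintro x (rfl | ⟨hx1, hx2⟩)
        · exact h1
        · rw [hA] at hx1
          rcases hx1 with hx1 | hx1
          · exact hx1.1
          · exact absurd (hA1s hx1) hx2
      · rintro x ⟨hx1, hx2⟩
        rw [hA] at hx1
        rcases hx1 with hx1 | hx1
        · rcases hA's hx1.1 with h2 | h2
          · exact absurd h2 hx1.2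
          · exact absurd hx2 h2
        · exact hx1
    · rw [if_neg h1] at hA
      rw [hA]
      exact hA'p
  have hAn : ∀ x ∈ A', x ≠ h → x ∈ A := by
    intro x hx hxh
    by_cases h1 : h ∈ A'
    · rw [hA, if_pos h1]
      exact Or.inl ⟨hx, hxh⟩
    · rw [hA, if_neg h1]
      exact hx
  obtain ⟨K, ⟨hKne, hKc, hKm⟩, hKA⟩ := hM.bad A hAp
  have hKpos : 0 < ∑ x ∈ K, w x := Finset.sum_pos (fun x _ => hM.pos x) hKne
  -- the weights `w'`
  have hex : ∀ L : Finset V, (↑L : Set V) ⊆ S → Clq G ↑L → ∑ x ∈ L, w' x ≤ ∑ x ∈ K, w x := by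
    intro L hL hLc
    by_cases h1 : h ∈ L
    · have h2 : ∀ x ∈ L.erase h, x ∉ H := by
        intro x hx
        rcases hL (Finset.mem_of_mem_erase hx) with h3 | h3
        · exact absurd h3 (Finset.ne_of_mem_erase hx)
        · exact h3
      have h3 : ∀ x ∈ L.erase h, ∀ y ∈ L0, G.Adj x y := by
        intro x hx y hy
        exact hcomp x (h2 x hx) h hh (hLc x (Finset.mem_of_mem_erase hx) h h1
          (Finset.ne_of_mem_erase hx)) y (hL0 hy)
      have h4 : Clq G ↑(L.erase h ∪ L0) := by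
        refine clq_union (hLc.mono ?_) hL0c h3
        intro x hx
        exact Finset.mem_of_mem_erase (Finset.mem_coe.1 hx)
      have h5 := hKm _ h4
      rw [Finset.sum_union, ← hm] at h5
      · rw [← Finset.add_sum_erase L w' h1, hw'h, hw's _ (Finset.notMem_erase h L), add_comm]
        exact h5
      · rw [Finset.disjoint_left]
        intro x hx hx'
        exact h2 x hx (hL0 hx')
    · rw [hw's L h1]
      exact hKm L hLc
  by_cases hKH : ∀ x ∈ K, x ∉ H
  · have hhK : h ∉ K := fun h1 => hKH h h1 hh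
    have hKS : (↑K : Set V) ⊆ S := fun x hx => Or.inr (hKH x hx)
    obtain ⟨x, hx, hxA⟩ := hA'm K ⟨hKS, hKc, fun L hL hLc => by
      rw [hw's K hhK]
      exact hex L hL hLc⟩ (by rw [hw's K hhK]; exact hKpos)
    exact hKA x hx (hAn x hxA fun e => hhK (e ▸ hx))
  · push Not at hKH
    obtain ⟨y, hyK, hyH⟩ := hKH
    set K1 := K.filter (fun x => x ∈ H) with hK1
    set K2 := K.filter (fun x => ¬ x ∈ H) with hK2
    have hsum : ∑ x ∈ K1, w x + ∑ x ∈ K2, w x = ∑ x ∈ K, w x :=
      Finset.sum_filter_add_sum_filter_not K (fun x => x ∈ H) w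
    have hK1H : (↑K1 : Set V) ⊆ H := fun x hx => (Finset.mem_filter.1 (Finset.mem_coe.1 hx)).2
    have hK1c : Clq G ↑K1 := hKc.mono fun x hx => (Finset.mem_filter.1 (Finset.mem_coe.1 hx)).1
    have hK2c : Clq G ↑K2 := hKc.mono fun x hx => (Finset.mem_filter.1 (Finset.mem_coe.1 hx)).1
    have hK2H : ∀ x ∈ K2, x ∉ H := fun x hx => (Finset.mem_filter.1 hx).2
    have hK2a : ∀ x ∈ K2, ∀ z ∈ H, G.Adj x z := by
      intro x hx z hz
      have h1 := hK2H x hx
      refine hcomp x h1 y hyH (hKc x (Finset.mem_filter.1 hx).1 y hyK ?_) z hz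
      rintro rfl
      exact h1 hyH
    have hK1m : ∑ x ∈ K1, w x = m := by
      apply le_antisymm (hL0m K1 hK1H hK1c)
      have h1 : Clq G ↑(K2 ∪ L0) := clq_union hK2c hL0c fun x hx z hz => hK2a x hx z (hL0 hz)
      have h2 := hKm _ h1
      rw [Finset.sum_union, ← hm] at h2
      · omega
      · rw [Finset.disjoint_left]
        intro x hx hx'
        exact hK2H x hx (hL0 hx')
    have hhK2 : h ∉ K2 := fun h1 => hK2H h h1 hh
    have hsum' : ∑ x ∈ insert h K2, w' x = ∑ x ∈ K, w x := by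
      rw [Finset.sum_insert hhK2, hw'h, hw's K2 hhK2]
      omega
    have hcl : Clq G ↑(insert h K2) := by
      rw [Finset.coe_insert]
      exact hK2c.insert fun x hx _ => (hK2a x hx h hh).symm
    obtain ⟨x, hx, hxA⟩ := hA'm (insert h K2) ⟨by
      rw [Finset.coe_insert]
      rintro x (rfl | hx)
      · exact Or.inl rfl
      · exact Or.inr (hK2H x hx), hcl, fun L hL hLc => by
        rw [hsum']
        exact hex L hL hLc⟩ (by rw [hsum']; exact hKpos)
    rcases Finset.mem_insert.1 hx with rfl | hx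
    · obtain ⟨z, hz, hzA⟩ := hA1m K1 ⟨hK1H, hK1c, fun L hL hLc => by
        rw [hK1m]
        exact hL0m L hL hLc⟩ (by rw [hK1m]; exact hmpos)
      refine hKA z (Finset.mem_filter.1 hz).1 ?_
      rw [hA, if_pos hxA]
      exact Or.inr hzA
    · exact hKA x (Finset.mem_filter.1 hx).1 (hAn x hxA fun e => hhK2 (e ▸ hx))

theorem goalPR (hSUB : G_SUB) (hMC0 : G_MC0) : G_PR := by
  intro V _ G w hM
  have hP := isPrime hSUB G w hM
  refine ⟨hP, ?_⟩
  intro P _ hne hP1
  by_contra hcon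
  push Not at hcon
  have hadj : ∀ a ∈ P, ∀ b, b ∉ P → G.Adj a b := fun a ha b hb => hcon a ha b trivial hb
  have h1 : ∀ a ∈ P, ∀ b ∈ P, a = b := by
    intro a ha b hb
    by_contra hab
    exact hP1 (hP P (fun x hx => Or.inl fun y hy => (hadj y hy x hx).symm) ⟨a, ha, b, hb, hab⟩)
  obtain ⟨p, hp⟩ := hne
  apply (hMC0 V G w hM).nperf p
  have h2 : Mn G p = ∅ := by
    ext x
    rw [mem_Mn]
    constructor
    · rintro ⟨h3, h4⟩
      exact absurd (hadj p hp x fun h5 => h3 (h1 x h5 p hp)) h4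
    · intro h3
      exact absurd h3 (Set.notMem_empty x)
  rw [h2]
  intro X hX n _
  refine ⟨fun _ => 0, fun x hx => absurd (hX hx) (Set.notMem_empty x), fun x hx =>
    absurd (hX hx) (Set.notMem_empty x)⟩

end Pool.Agent.Helper86.SV
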